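import Pool.Agent.Helper58.Qip.Stmts2

set_option autoImplicit false
set_option linter.unusedSectionVars false

/-!
Tightness of a martingale from its central limit theorem.
-/

open MeasureTheory ProbabilityTheory Filter Topology
open scoped ENNReal NNReal

namespace Pool.Agent.Helper96.QipT

open Pool.Agent.Helper58.Qip

variable {D : Type} [Fintype D] [Nonempty D] [MeasurableSpace D] [MeasurableSingletonClass D]
  {ψ : ℕ → (ℕ → D) → D → ℝ}

lemma X_dep (hd : ∀ k u u', (∀ i, i < k → u i = u' i) → ψ k u = ψ k u') (k : ℕ) :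
    Dep (k + 1) (fun u : ℕ → D => ψ k u (u k)) := by
  intro u u' h
  have h1 := hd k u u' fun i hi => h i (by omega)
  have h2 := h k (by omega)
  change ψ k u (u k) = ψ k u' (u' k)
  rw [h1, h2]

lemma X_orth (hd : ∀ k u u', (∀ i, i < k → u i = u' i) → ψ k u = ψ k u')
    (h0 : ∀ k u, ∑ e, ψ k u e = 0) (k : ℕ) (Y : (ℕ → D) → ℝ) (hY : Dep k Y) :
    ∫ u, ψ k u (u k) * Y u ∂unif D = 0 := by
  have h := integral_step (D := D) (g := fun u e => ψ k u e * Y u) (k := k) (fun e u u' hu => by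
    simp only [hd k u u' hu, hY u u' hu])
  rw [h]
  simp [← Finset.sum_mul, h0]

lemma X_sq (hd : ∀ k u u', (∀ i, i < k → u i = u' i) → ψ k u = ψ k u') (k : ℕ) :
    ∫ u, (ψ k u (u k)) ^ 2 ∂unif D
      = ∫ u, (∑ e, ψ k u e ^ 2) / (Fintype.card D : ℝ) ∂unif D :=
  integral_step (D := D) (g := fun u e => ψ k u e ^ 2) (k := k) (fun e u u' hu => by
    simp only [hd k u u' hu])

lemma window (hK : StmtK) (hd : ∀ k u u', (∀ i, i < k → u i = u' i) → ψ k u = ψ k u')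
    (h0 : ∀ k u, ∑ e, ψ k u e = 0) (A B : ℕ) {lam : ℝ} (hlam : 0 < lam) :
    (unif D).real {u | ∃ j ≤ B - A, lam ≤ |∑ i ∈ Finset.range j, ψ (A + i) u (u (A + i))|} ≤
      (∑ k ∈ Finset.Ico A B, ∫ u, (∑ e, ψ k u e ^ 2) / (Fintype.card D : ℝ) ∂unif D)
        / lam ^ 2 ∧
    (unif D).real {u | ∃ j ≤ B - A, 2 * lam ≤ |∑ i ∈ Finset.range j, ψ (A + i) u (u (A + i))|} ≤
      √(∑ k ∈ Finset.Ico A B, ∫ u, (∑ e, ψ k u e ^ 2) / (Fintype.card D : ℝ) ∂unif D) / lam *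
        √((unif D).real {u | lam ≤ |∑ k ∈ Finset.Ico A B, ψ k u (u k)|}) := by
  have h := hK (ℕ → D) (unif D) (fun j u u' => ∀ i, i < A + j → u i = u' i) (B - A)
    (fun j u => ψ (A + j) u (u (A + j)))
    (fun j u u' h i hi => h i (by omega))
    (fun j _ => ⟨(X_dep hd (A + j)).measurable, (X_dep hd (A + j)).bdd⟩)
    (fun j _ u u' h => X_dep hd (A + j) u u' h)
    (fun j _ Y _ _ hY => X_orth hd h0 (A + j) Y hY) lam hlam
  have e1 : ∑ i ∈ Finset.range (B - A), ∫ u, (ψ (A + i) u (u (A + i))) ^ 2 ∂unif D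
      = ∑ k ∈ Finset.Ico A B, ∫ u, (∑ e, ψ k u e ^ 2) / (Fintype.card D : ℝ) ∂unif D := by
    rw [Finset.sum_Ico_eq_sum_range]
    exact Finset.sum_congr rfl fun i _ => X_sq hd (A + i)
  have e2 : ∀ u : ℕ → D, ∑ i ∈ Finset.range (B - A), ψ (A + i) u (u (A + i))
      = ∑ k ∈ Finset.Ico A B, ψ k u (u k) := by
    intro u
    rw [Finset.sum_Ico_eq_sum_range]
  simp only [e1, e2] at h
  exact h

/-- A trigonometric test function. -/
lemma one_sub_cos_sq (y : ℝ) :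
    (1 - Real.cos y) ^ 2 = 3 / 2 - 2 * Real.cos y + 1 / 2 * Real.cos (2 * y) := by
  rw [Real.cos_two_mul]; ring

lemma exp_neg_le {y : ℝ} (hy : 0 ≤ y) : Real.exp (-y) ≤ 1 - y + y ^ 2 / 2 := by
  have h1 := Real.quadratic_le_exp_of_nonneg hy
  have h2 : 0 < 1 - y + y ^ 2 / 2 := by nlinarith [sq_nonneg (y - 1)]
  rw [Real.exp_neg, inv_le_comm₀ (Real.exp_pos y) h2, inv_le_iff_one_le_mul₀ h2]
  nlinarith [mul_le_mul_of_nonneg_right h1 h2.le, sq_nonneg (y ^ 2)]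

lemma gauss_bound {x : ℝ} (hx : 0 ≤ x) :
    3 / 2 - 2 * Real.exp (-x) + 1 / 2 * Real.exp (-(4 * x)) ≤ 4 * x ^ 2 := by
  have h1 : 1 - x ≤ Real.exp (-x) := by
    have := Real.add_one_le_exp (-x); linarith
  have h2 := exp_neg_le (y := 4 * x) (by positivity)
  nlinarith

/-- Tail bound by a trigonometric test function. -/
lemma tail_le {N : ℕ} {S : (ℕ → D) → ℝ} (hS : Dep N S) {c K : ℝ} (hc : 0 < c) (hcK : c ≤ K) :
    (unif D).real {u | c ≤ |S u|} ≤ (unif D).real {u | K ≤ |S u|} +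
      (3 / 2 - 2 * ∫ u, Real.cos (Real.pi / K * S u) ∂unif D
        + 1 / 2 * ∫ u, Real.cos (2 * (Real.pi / K) * S u) ∂unif D)
        / (1 - Real.cos (Real.pi / K * c)) ^ 2 := by
  have hK : 0 < K := hc.trans_le hcK
  set t : ℝ := Real.pi / K with ht
  have ht0 : 0 < t := div_pos Real.pi_pos hK
  have htK : t * K = Real.pi := by rw [ht]; field_simp
  set κ : ℝ := 1 - Real.cos (t * c) with hκ
  have hκ0 : 0 < κ := by
    have h1 : Real.cos (t * c) < Real.cos 0 := by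
      apply Real.cos_lt_cos_of_nonneg_of_le_pi le_rfl _ (by positivity)
      rw [← htK]
      gcongr
    rw [Real.cos_zero] at h1
    linarith
  have hsub : {u | c ≤ |S u|} ⊆ {u | K ≤ |S u|} ∪ {u | κ ^ 2 ≤ (1 - Real.cos (t * S u)) ^ 2} := by
    intro u hu
    by_cases h : K ≤ |S u|
    · exact Or.inl h
    · right
      push Not at h
      have h1 : Real.cos (t * S u) = Real.cos (t * |S u|) := by
        rw [← Real.cos_abs, abs_mul, abs_of_pos ht0]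
      have h2 : Real.cos (t * |S u|) ≤ Real.cos (t * c) := by
        apply Real.cos_le_cos_of_nonneg_of_le_pi (by positivity)
        · rw [← htK]; gcongr
        · have : c ≤ |S u| := hu
          gcongr
      have h3 : κ ≤ 1 - Real.cos (t * S u) := by rw [h1]; linarith
      exact pow_le_pow_left₀ hκ0.le h3 2
  have hd : Dep N (fun u => (1 - Real.cos (t * S u)) ^ 2) := hS.comp fun x => (1 - Real.cos (t * x)) ^ 2
  have hd1 : Dep N (fun u => Real.cos (t * S u)) := hS.comp fun x => Real.cos (t * x)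
  have hd2 : Dep N (fun u => Real.cos (2 * t * S u)) := hS.comp fun x => Real.cos (2 * t * x)
  have hint : ∫ u, (1 - Real.cos (t * S u)) ^ 2 ∂unif D
      = 3 / 2 - 2 * ∫ u, Real.cos (t * S u) ∂unif D
        + 1 / 2 * ∫ u, Real.cos (2 * t * S u) ∂unif D := by
    have e : ∀ u : ℕ → D, (1 - Real.cos (t * S u)) ^ 2
        = 3 / 2 - 2 * Real.cos (t * S u) + 1 / 2 * Real.cos (2 * t * S u) := by
      intro u
      rw [one_sub_cos_sq, mul_assoc]
    rw [integral_congr_ae (Eventually.of_forall e), integral_add, integral_sub,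
      integral_const_mul, integral_const_mul]
    · simp
    · exact integrable_const _
    · exact (hd1.integrable _).const_mul _
    · exact (integrable_const _).sub ((hd1.integrable _).const_mul _)
    · exact (hd2.integrable _).const_mul _
  refine (measureReal_mono hsub).trans ((measureReal_union_le _ _).trans ?_)
  gcongr
  have h := mul_meas_ge_le_integral_of_nonneg (μ := unif D)
    (f := fun u => (1 - Real.cos (t * S u)) ^ 2)
    (Eventually.of_forall fun u => sq_nonneg _) (hd.integrable _) (κ ^ 2)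
  rw [← hint, le_div_iff₀ (by positivity), mul_comm]
  exact h

/-- Convergence of the cosine integrals. -/
lemma cos_limit (hd : ∀ k u u', (∀ i, i < k → u i = u' i) → ψ k u = ψ k u') {v : ℝ}
    (A B : ℕ → ℕ) (θ : ℝ)
    (h : Tendsto (fun n : ℕ => ∫ u, Complex.exp (Complex.I *
      ((θ * (∑ k ∈ Finset.Ico (A n) (B n), ψ k u (u k)) / √(n : ℝ) : ℝ))) ∂unif D) atTop
      (𝓝 (Complex.exp (-(1 / 2) * ((θ ^ 2 * v : ℝ) : ℂ))))) :
    Tendsto (fun n : ℕ => ∫ u, Real.cos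
      (θ * ((∑ k ∈ Finset.Ico (A n) (B n), ψ k u (u k)) / √(n : ℝ))) ∂unif D) atTop
      (𝓝 (Real.exp (-(θ ^ 2 * v / 2)))) := by
  have h1 := (Complex.continuous_re.tendsto _).comp h
  have e1 : (Complex.exp (-(1 / 2) * ((θ ^ 2 * v : ℝ) : ℂ))).re
      = Real.exp (-(θ ^ 2 * v / 2)) := by
    have : (-(1 / 2) * ((θ ^ 2 * v : ℝ) : ℂ)) = ((-(θ ^ 2 * v / 2) : ℝ) : ℂ) := by
      push_cast; ring
    rw [this, Complex.exp_ofReal_re]
  rw [e1] at h1
  refine h1.congr fun n => ?_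
  have hD : Dep (B n) (fun u : ℕ → D => Complex.exp (Complex.I *
      ((θ * (∑ k ∈ Finset.Ico (A n) (B n), ψ k u (u k)) / √(n : ℝ) : ℝ)))) := by
    have : Dep (B n) (fun u : ℕ → D => ∑ k ∈ Finset.Ico (A n) (B n), ψ k u (u k)) := by
      refine Dep.sum _ fun k hk => ?_
      rw [Finset.mem_Ico] at hk
      exact (X_dep hd k).mono (by omega)
    exact this.comp fun x => Complex.exp (Complex.I * ((θ * x / √(n : ℝ) : ℝ)))
  have hint : Integrable (fun u : ℕ → D => Complex.exp (Complex.I *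
      ((θ * (∑ k ∈ Finset.Ico (A n) (B n), ψ k u (u k)) / √(n : ℝ) : ℝ)))) (unif D) := by
    refine Integrable.of_bound hD.measurable.aestronglyMeasurable 1
      (Eventually.of_forall fun u => ?_)
    rw [mul_comm, Complex.norm_exp_ofReal_mul_I]
  have h2 := integral_re hint
  simp only [Function.comp]
  rw [show (∫ u, Complex.exp (Complex.I *
      ((θ * (∑ k ∈ Finset.Ico (A n) (B n), ψ k u (u k)) / √(n : ℝ) : ℝ))) ∂unif D).re
      = RCLike.re (∫ u, Complex.exp (Complex.I *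
      ((θ * (∑ k ∈ Finset.Ico (A n) (B n), ψ k u (u k)) / √(n : ℝ) : ℝ))) ∂unif D) from rfl,
    ← h2]
  refine integral_congr_ae (Eventually.of_forall fun u => ?_)
  change (Complex.exp (Complex.I *
      ((θ * (∑ k ∈ Finset.Ico (A n) (B n), ψ k u (u k)) / √(n : ℝ) : ℝ)))).re = _
  rw [mul_comm Complex.I, Complex.exp_ofReal_mul_I_re, mul_div_assoc]

lemma window_limit (hK : StmtK) (hd : ∀ k u u', (∀ i, i < k → u i = u' i) → ψ k u = ψ k u')
    (h0 : ∀ k u, ∑ e, ψ k u e = 0) (A B : ℕ → ℕ) {v : ℝ} (hv0 : 0 ≤ v)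
    (hV : Tendsto (fun n : ℕ => (∑ k ∈ Finset.Ico (A n) (B n),
        ∫ u, (∑ e, ψ k u e ^ 2) / (Fintype.card D : ℝ) ∂unif D) / (n : ℝ)) atTop (𝓝 v))
    (hC : ∀ θ : ℝ, Tendsto (fun n : ℕ => ∫ u, Complex.exp (Complex.I *
      ((θ * (∑ k ∈ Finset.Ico (A n) (B n), ψ k u (u k)) / √(n : ℝ) : ℝ))) ∂unif D) atTop
      (𝓝 (Complex.exp (-(1 / 2) * ((θ ^ 2 * v : ℝ) : ℂ)))))
    {c K L : ℝ} (hc : 0 < c) (hcK : c ≤ K)
    (hL : √v / c * √(v / K ^ 2 + 4 * ((Real.pi / K) ^ 2 * v / 2) ^ 2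
      / (1 - Real.cos (Real.pi / K * c)) ^ 2) < L) :
    ∀ᶠ n : ℕ in atTop, (unif D).real {u | ∃ j ≤ B n - A n, 2 * (c * √(n : ℝ)) ≤
      |∑ i ∈ Finset.range j, ψ (A n + i) u (u (A n + i))|} ≤ L := by
  have hKp : 0 < K := hc.trans_le hcK
  set t : ℝ := Real.pi / K with ht
  set κ : ℝ := 1 - Real.cos (t * c) with hκ
  have c1 := cos_limit hd A B t (hC t)
  have c2 := cos_limit hd A B (2 * t) (hC (2 * t))
  set V : ℕ → ℝ := fun n => (∑ k ∈ Finset.Ico (A n) (B n),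
        ∫ u, (∑ e, ψ k u e ^ 2) / (Fintype.card D : ℝ) ∂unif D) / (n : ℝ) with hVdef
  set S : ℕ → (ℕ → D) → ℝ := fun n u =>
    (∑ k ∈ Finset.Ico (A n) (B n), ψ k u (u k)) / √(n : ℝ) with hSdef
  have hlim : Tendsto (fun n => √(V n) / c * √(V n / K ^ 2 +
      (3 / 2 - 2 * ∫ u, Real.cos (t * S n u) ∂unif D
        + 1 / 2 * ∫ u, Real.cos (2 * t * S n u) ∂unif D) / κ ^ 2)) atTop
      (𝓝 (√v / c * √(v / K ^ 2 + (3 / 2 - 2 * Real.exp (-(t ^ 2 * v / 2))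
        + 1 / 2 * Real.exp (-((2 * t) ^ 2 * v / 2))) / κ ^ 2))) := by
    refine ((hV.sqrt).div_const c).mul (Tendsto.sqrt ?_)
    refine (hV.div_const _).add (Tendsto.div_const ?_ _)
    exact (tendsto_const_nhds.sub (c1.const_mul 2)).add (c2.const_mul (1 / 2))
  have hlt : √v / c * √(v / K ^ 2 + (3 / 2 - 2 * Real.exp (-(t ^ 2 * v / 2))
        + 1 / 2 * Real.exp (-((2 * t) ^ 2 * v / 2))) / κ ^ 2) < L := by
    refine lt_of_le_of_lt ?_ hL
    have hx : 0 ≤ t ^ 2 * v / 2 := by positivity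
    have hg := gauss_bound hx
    rw [show 4 * (t ^ 2 * v / 2) = (2 * t) ^ 2 * v / 2 by ring] at hg
    gcongr
  filter_upwards [hlim.eventually_lt_const hlt, eventually_gt_atTop 0] with n hn hn0
  have hs : 0 < √(n : ℝ) := Real.sqrt_pos.2 (by exact_mod_cast hn0)
  have hnR : (0 : ℝ) < n := by exact_mod_cast hn0
  refine le_trans ?_ hn.le
  refine (window hK hd h0 (A n) (B n) (lam := c * √(n : ℝ)) (by positivity)).2.trans ?_
  have hD : Dep (B n) (S n) := by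
    have : Dep (B n) (fun u : ℕ → D => ∑ k ∈ Finset.Ico (A n) (B n), ψ k u (u k)) := by
      refine Dep.sum _ fun k hk => ?_
      rw [Finset.mem_Ico] at hk
      exact (X_dep hd k).mono (by omega)
    exact this.comp fun x => x / √(n : ℝ)
  have e1 : √(∑ k ∈ Finset.Ico (A n) (B n),
      ∫ u, (∑ e, ψ k u e ^ 2) / (Fintype.card D : ℝ) ∂unif D) / (c * √(n : ℝ))
      = √(V n) / c := by
    simp only [hVdef]
    rw [Real.sqrt_div' _ hnR.le]
    field_simp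
  have hset : ∀ x : ℝ, {u : ℕ → D | x * √(n : ℝ) ≤ |∑ k ∈ Finset.Ico (A n) (B n), ψ k u (u k)|}
      = {u | x ≤ |S n u|} := by
    intro x
    ext u
    simp only [Set.mem_ofPred_eq, hSdef]
    rw [abs_div, abs_of_pos hs, le_div_iff₀ hs]
  rw [e1, hset]
  gcongr
  refine (tail_le hD hc hcK).trans ?_
  rw [← ht]
  gcongr
  have h1 := (window hK hd h0 (A n) (B n) (lam := K * √(n : ℝ)) (by positivity)).1
  have hsub : {u : ℕ → D | K ≤ |S n u|} ⊆ {u | ∃ j ≤ B n - A n, K * √(n : ℝ) ≤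
      |∑ i ∈ Finset.range j, ψ (A n + i) u (u (A n + i))|} := by
    intro u hu
    rw [← hset] at hu
    refine ⟨B n - A n, le_rfl, ?_⟩
    rw [← Finset.sum_Ico_eq_sum_range (fun k => ψ k u (u k))]
    exact hu
  refine (measureReal_mono hsub).trans (h1.trans (le_of_eq ?_))
  simp only [hVdef]
  rw [mul_pow, Real.sq_sqrt hnR.le]
  field_simp

/-- The choice of the window length. -/
lemma exists_delta {T s η c K t κ : ℝ} (hT : 0 < T) (hs : 0 ≤ s) (hc : 0 < c) (hK : 0 < K)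
    (hκ : 0 < κ) (h : (T + 1) / c * (s / K) < η) :
    ∃ δ : ℝ, 0 < δ ∧ ((⌊T / δ⌋₊ + 1 : ℕ) : ℝ) * (√(δ * s) / c *
      √(δ * s / K ^ 2 + 4 * (t ^ 2 * (δ * s) / 2) ^ 2 / κ ^ 2)) < η := by
  have hcont : Tendsto (fun δ : ℝ => (T + 1) / c * √(s ^ 2 / K ^ 2 + t ^ 4 * s ^ 3 * δ / κ ^ 2))
      (𝓝[>] 0) (𝓝 ((T + 1) / c * (s / K))) := by
    have h1 : Tendsto (fun δ : ℝ => (T + 1) / c *
        √(s ^ 2 / K ^ 2 + t ^ 4 * s ^ 3 * δ / κ ^ 2)) (𝓝 0)
        (𝓝 ((T + 1) / c * √(s ^ 2 / K ^ 2 + t ^ 4 * s ^ 3 * 0 / κ ^ 2))) :=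
      Continuous.tendsto (by fun_prop) 0
    have h2 : √(s ^ 2 / K ^ 2 + t ^ 4 * s ^ 3 * 0 / κ ^ 2) = s / K := by
      rw [mul_zero, zero_div, add_zero, ← div_pow, Real.sqrt_sq (by positivity)]
    rw [h2] at h1
    exact h1.mono_left nhdsWithin_le_nhds
  have hev := hcont.eventually_lt_const h
  have h1 : ∀ᶠ δ : ℝ in 𝓝[>] 0, δ < 1 := by
    filter_upwards [nhdsWithin_le_nhds (Iio_mem_nhds (show (0 : ℝ) < 1 by norm_num))] with δ hδ
    exact hδ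
  obtain ⟨δ, ⟨hδ1, hδ2⟩, hδ0⟩ := ((hev.and h1).and self_mem_nhdsWithin).exists
  have hδ : 0 < δ := hδ0
  refine ⟨δ, hδ, lt_of_le_of_lt ?_ hδ1⟩
  have e1 : √(δ * s) / c * √(δ * s / K ^ 2 + 4 * (t ^ 2 * (δ * s) / 2) ^ 2 / κ ^ 2)
      = δ * (√(s ^ 2 / K ^ 2 + t ^ 4 * s ^ 3 * δ / κ ^ 2) / c) := by
    rw [div_mul_eq_mul_div, ← Real.sqrt_mul (by positivity), ← mul_div_assoc]
    congr 1
    rw [show δ * s * (δ * s / K ^ 2 + 4 * (t ^ 2 * (δ * s) / 2) ^ 2 / κ ^ 2)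
      = δ ^ 2 * (s ^ 2 / K ^ 2 + t ^ 4 * s ^ 3 * δ / κ ^ 2) by ring,
      Real.sqrt_mul (by positivity), Real.sqrt_sq hδ.le]
  have hW : ((⌊T / δ⌋₊ + 1 : ℕ) : ℝ) ≤ (T + 1) / δ := by
    push_cast
    have h3 : (⌊T / δ⌋₊ : ℝ) ≤ T / δ := Nat.floor_le (by positivity)
    have h4 : (1 : ℝ) ≤ 1 / δ := by rw [le_div_iff₀ hδ]; linarith
    rw [add_div]
    linarith
  rw [e1]
  calc ((⌊T / δ⌋₊ + 1 : ℕ) : ℝ) * (δ * (√(s ^ 2 / K ^ 2 + t ^ 4 * s ^ 3 * δ / κ ^ 2) / c))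
      ≤ (T + 1) / δ * (δ * (√(s ^ 2 / K ^ 2 + t ^ 4 * s ^ 3 * δ / κ ^ 2) / c)) := by gcongr
    _ = (T + 1) / c * √(s ^ 2 / K ^ 2 + t ^ 4 * s ^ 3 * δ / κ ^ 2) := by field_simp

lemma sum_sub {x : ℕ → ℝ} {a j : ℕ} (h : a ≤ j) :
    ∑ k ∈ Finset.range j, x k - ∑ k ∈ Finset.range a, x k
      = ∑ k ∈ Finset.range (j - a), x (a + k) := by
  rw [← Finset.sum_range_add_sum_Ico x h, Finset.sum_Ico_eq_sum_range]
  ring

/-- The deterministic covering argument. -/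
lemma cover {x : ℕ → ℝ} {δ : ℝ≥0} (hδ : 0 < δ) {T c r : ℝ} {n : ℕ} (hn : 0 < n)
    (hx : ∀ i < ⌊T / δ⌋₊ + 1, ∀ j ≤ ⌊(n : ℝ≥0) * (((i : ℝ≥0) + 1) * δ)⌋₊ -
      ⌊(n : ℝ≥0) * ((i : ℝ≥0) * δ)⌋₊,
      |∑ k ∈ Finset.range j, x (⌊(n : ℝ≥0) * ((i : ℝ≥0) * δ)⌋₊ + k)| < 2 * (c * r))
    {j j' : ℕ} (hjj : j ≤ j') (hj' : (j' : ℝ) ≤ T * n)
    (hd : (j' : ℝ) - j ≤ δ * n) :
    |∑ k ∈ Finset.range j, x k - ∑ k ∈ Finset.range j', x k| < 6 * c * r := by
  have hδR : (0 : ℝ) < δ := hδ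
  have hnR : (0 : ℝ) < n := by exact_mod_cast hn
  have hnd : 0 < (n : ℝ) * δ := by positivity
  set t : ℕ → ℕ := fun i => ⌊(n : ℝ≥0) * ((i : ℝ≥0) * δ)⌋₊ with ht
  have ht1 : ∀ i : ℕ, ⌊(n : ℝ≥0) * (((i : ℝ≥0) + 1) * δ)⌋₊ = t (i + 1) := by
    intro i; simp only [ht]; push_cast; rfl
  have hmono : ∀ i, t i ≤ t (i + 1) := by
    intro i
    apply Nat.floor_mono
    gcongr
    simp
  set i : ℕ → ℕ := fun m => ⌊(m : ℝ) / (n * δ)⌋₊ with hi
  have hlo : ∀ m, t (i m) ≤ m := by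
    intro m
    apply Nat.floor_le_of_le
    rw [← NNReal.coe_le_coe]
    push_cast
    have : (i m : ℝ) ≤ (m : ℝ) / (n * δ) := Nat.floor_le (by positivity)
    rw [le_div_iff₀ hnd] at this
    linarith
  have hhi : ∀ m, m ≤ t (i m + 1) := by
    intro m
    apply Nat.le_floor
    rw [← NNReal.coe_le_coe]
    push_cast
    have : (m : ℝ) / (n * δ) < i m + 1 := Nat.lt_floor_add_one _
    rw [div_lt_iff₀ hnd] at this
    linarith
  have hiW : ∀ m : ℕ, (m : ℝ) ≤ T * n → i m < ⌊T / δ⌋₊ + 1 := by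
    intro m hm
    rw [Nat.lt_add_one_iff]
    apply Nat.floor_mono
    rw [div_le_div_iff₀ hnd hδR]
    nlinarith
  have key : ∀ a < ⌊T / δ⌋₊ + 1, ∀ m, t a ≤ m → m ≤ t (a + 1) →
      |∑ k ∈ Finset.range m, x k - ∑ k ∈ Finset.range (t a), x k| < 2 * (c * r) := by
    intro a ha m h1 h2
    rw [sum_sub h1]
    refine hx a ha (m - t a) ?_
    rw [ht1]
    exact Nat.sub_le_sub_right h2 _
  have hjT : (j : ℝ) ≤ T * n := le_trans (by exact_mod_cast hjj) hj'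
  have k1 := key (i j) (hiW j hjT) j (hlo j) (hhi j)
  have k2 := key (i j') (hiW j' hj') j' (hlo j') (hhi j')
  have i1 : i j ≤ i j' := by
    apply Nat.floor_mono
    gcongr
  have i2 : i j' ≤ i j + 1 := by
    have : (j' : ℝ) / (n * δ) ≤ (j : ℝ) / (n * δ) + 1 := by
      rw [div_add_one hnd.ne', div_le_div_iff_of_pos_right hnd]
      linarith
    calc i j' ≤ ⌊(j : ℝ) / (n * δ) + 1⌋₊ := Nat.floor_mono this
      _ = i j + 1 := Nat.floor_add_one (by positivity)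
  have hcr : 0 < c * r := by
    have := abs_nonneg (∑ k ∈ Finset.range j, x k - ∑ k ∈ Finset.range (t (i j)), x k)
    linarith
  rw [abs_lt] at k1 k2 ⊢
  rcases Nat.lt_or_ge (i j) (i j') with h | h
  · have e : i j' = i j + 1 := by omega
    have k3 := key (i j) (hiW j hjT) (t (i j + 1)) (hmono _) le_rfl
    rw [e] at k2
    rw [abs_lt] at k3
    constructor <;> linarith [k1.1, k1.2, k2.1, k2.2, k3.1, k3.2]
  · have e : i j' = i j := by omega
    rw [e] at k2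
    constructor <;> linarith [k1.1, k1.2, k2.1, k2.2]

/-- Packet T. -/
theorem stmtT (hK : StmtK) : StmtT := by
  intro D _ _ _ _ ψ s hs hd h0 hV hC T ε η hT hε hη
  set c : ℝ := ε / 6 with hc
  have hc0 : 0 < c := by positivity
  obtain ⟨K, hcK, hKb⟩ : ∃ K : ℝ, c ≤ K ∧ (T + 1) / c * (s / K) < η := by
    have h1 : Tendsto (fun K : ℝ => (T + 1) / c * (s / K)) atTop (𝓝 ((T + 1) / c * 0)) :=
      (tendsto_const_nhds.div_atTop tendsto_id).const_mul _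
    rw [mul_zero] at h1
    obtain ⟨K, h2, h3⟩ := ((eventually_ge_atTop c).and (h1.eventually_lt_const hη)).exists
    exact ⟨K, h2, h3⟩
  have hKp : 0 < K := hc0.trans_le hcK
  have hκ0 : 0 < 1 - Real.cos (Real.pi / K * c) := by
    have h1 : Real.cos (Real.pi / K * c) < Real.cos 0 := by
      apply Real.cos_lt_cos_of_nonneg_of_le_pi le_rfl _ (by positivity)
      rw [div_mul_eq_mul_div, div_le_iff₀ hKp]
      gcongr
    rw [Real.cos_zero] at h1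
    linarith
  obtain ⟨δ, hδ, hδL⟩ := exists_delta (t := Real.pi / K) hT hs hc0 hKp hκ0 hKb
  refine ⟨δ, hδ, ?_⟩
  lift δ to ℝ≥0 using hδ.le
  have hδ' : 0 < δ := by exact_mod_cast hδ
  set W : ℕ := ⌊T / (δ : ℝ)⌋₊ + 1 with hW
  have hWp : (0 : ℝ) < W := by rw [hW]; positivity
  have hL : √((δ : ℝ) * s) / c * √((δ : ℝ) * s / K ^ 2 + 4 * ((Real.pi / K) ^ 2 *
      ((δ : ℝ) * s) / 2) ^ 2 / (1 - Real.cos (Real.pi / K * c)) ^ 2) < η / W := by
    rw [lt_div_iff₀ hWp, mul_comm]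
    exact hδL
  have hall : ∀ i ∈ Finset.range W, ∀ᶠ n : ℕ in atTop,
      (unif D).real {u | ∃ j ≤ ⌊(n : ℝ≥0) * (((i : ℝ≥0) + 1) * δ)⌋₊ -
        ⌊(n : ℝ≥0) * ((i : ℝ≥0) * δ)⌋₊, 2 * (c * √(n : ℝ)) ≤
      |∑ k ∈ Finset.range j, ψ (⌊(n : ℝ≥0) * ((i : ℝ≥0) * δ)⌋₊ + k) u
        (u (⌊(n : ℝ≥0) * ((i : ℝ≥0) * δ)⌋₊ + k))|} ≤ η / W := by
    intro i _
    have hle : (i : ℝ≥0) * δ ≤ ((i : ℝ≥0) + 1) * δ := by gcongr; simp
    have hdiff : (((((i : ℝ≥0) + 1) * δ : ℝ≥0) : ℝ) - (((i : ℝ≥0) * δ : ℝ≥0) : ℝ)) * s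
        = (δ : ℝ) * s := by push_cast; ring
    have hV' := hV _ _ hle
    rw [hdiff] at hV'
    refine window_limit hK hd h0 (fun n => ⌊(n : ℝ≥0) * ((i : ℝ≥0) * δ)⌋₊)
      (fun n => ⌊(n : ℝ≥0) * (((i : ℝ≥0) + 1) * δ)⌋₊) (v := (δ : ℝ) * s) (by positivity)
      hV' ?_ hc0 hcK hL
    intro θ
    have := hC _ _ hle θ
    rw [mul_assoc (θ ^ 2), hdiff] at this
    exact this
  have hall' := (Finset.eventually_all (Finset.range W)).2 hall
  filter_upwards [hall', eventually_gt_atTop 0] with n hn hn0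
  set E : ℕ → Set (ℕ → D) := fun i => {u | ∃ j ≤ ⌊(n : ℝ≥0) * (((i : ℝ≥0) + 1) * δ)⌋₊ -
        ⌊(n : ℝ≥0) * ((i : ℝ≥0) * δ)⌋₊, 2 * (c * √(n : ℝ)) ≤
      |∑ k ∈ Finset.range j, ψ (⌊(n : ℝ≥0) * ((i : ℝ≥0) * δ)⌋₊ + k) u
        (u (⌊(n : ℝ≥0) * ((i : ℝ≥0) * δ)⌋₊ + k))|} with hE
  have hsub : {u : ℕ → D | ∃ j j' : ℕ, (j : ℝ) ≤ T * n ∧ (j' : ℝ) ≤ T * n ∧
        |(j : ℝ) - j'| ≤ (δ : ℝ) * n ∧
        ε * √(n : ℝ) < |∑ k ∈ Finset.range j, ψ k u (u k)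
          - ∑ k ∈ Finset.range j', ψ k u (u k)|} ⊆ ⋃ i ∈ Finset.range W, E i := by
    rintro u ⟨j, j', hj, hj', hjj, hu⟩
    by_contra hcon
    simp only [Set.mem_iUnion, not_exists, hE, Set.mem_ofPred_eq, not_and, not_le,
      Finset.mem_range] at hcon
    have h6 : ε * √(n : ℝ) = 6 * c * √(n : ℝ) := by rw [hc]; ring
    rw [h6] at hu
    rcases le_total j j' with h | h
    · refine absurd hu (not_lt.2 (cover hδ' hn0 hcon h hj' ?_).le)
      rw [abs_sub_comm] at hjj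
      exact (le_abs_self _).trans hjj
    · rw [abs_sub_comm] at hu
      refine absurd hu (not_lt.2 (cover hδ' hn0 hcon h hj ?_).le)
      exact (le_abs_self _).trans hjj
  refine (measureReal_mono hsub (measure_ne_top _ _)).trans
    ((measureReal_biUnion_finset_le _ _).trans ?_)
  calc ∑ i ∈ Finset.range W, (unif D).real (E i) ≤ ∑ _i ∈ Finset.range W, η / W :=
        Finset.sum_le_sum fun i hi => hn i hi
    _ = η := by
        rw [Finset.sum_const, Finset.card_range, nsmul_eq_mul]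
        field_simp

end Pool.Agent.Helper96.QipT
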